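import Pool.Agent.H731R6.Bc.HP5
import Pool.Agent.Y560.BE.Erg
import Pool.Agent.H165R3.Birk

/-!
Boundary clusters of critical bond percolation on the half-plane: translations, measurability.
-/

set_option autoImplicit false

namespace Pool.Agent.K3h14.BC

open MeasureTheory Filter Topology
open H731B (OpenAdjH percH bclH esc)

/-! ### measurability of the connection events -/

section meas

variable {Ω V : Type} [MeasurableSpace Ω] (r : Ω → V → V → Prop)

/-- joined by at most... exactly `n` steps -/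
def En : ℕ → Ω → V → V → Prop
  | 0, _, p, q => p = q
  | n + 1, ω, p, q => ∃ z, En n ω p z ∧ (r ω z q ∨ r ω q z)

theorem En_trans {ω : Ω} {n : ℕ} {p q : V} (h : En r n ω p q) :
    ∀ {m : ℕ} {w : V}, En r m ω q w → En r (n + m) ω p w := by
  intro m
  induction m with
  | zero => rintro w rfl; exact h
  | succ m ih =>
    rintro w ⟨z, hz, hs⟩
    exact ⟨z, ih hz, hs⟩

theorem En_symm {ω : Ω} : ∀ {n : ℕ} {p q : V}, En r n ω p q → En r n ω q p := by
  intro n
  induction n with
  | zero => rintro p q rfl; rfl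
  | succ n ih =>
    rintro p q ⟨z, hz, hs⟩
    have h1 : En r 1 ω q z := ⟨q, rfl, hs.symm⟩
    have h2 := En_trans r h1 (ih hz)
    rwa [add_comm] at h2

theorem eqv_iff (ω : Ω) (p q : V) : Relation.EqvGen (r ω) p q ↔ ∃ n, En r n ω p q := by
  constructor
  · intro h
    induction h with
    | rel x y h => exact ⟨1, x, rfl, Or.inl h⟩
    | refl x => exact ⟨0, rfl⟩
    | symm x y _ ih =>
      obtain ⟨n, hn⟩ := ih
      exact ⟨n, En_symm r hn⟩
    | trans x y z _ _ ih1 ih2 =>
      obtain ⟨n, hn⟩ := ih1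
      obtain ⟨m, hm⟩ := ih2
      exact ⟨n + m, En_trans r hn hm⟩
  · rintro ⟨n, hn⟩
    induction n generalizing q with
    | zero =>
      have : p = q := hn
      subst this
      exact .refl _
    | succ n ih =>
      obtain ⟨z, hz, hs⟩ := hn
      refine (ih _ hz).trans _ _ _ ?_
      rcases hs with hs | hs
      · exact .rel _ _ hs
      · exact .symm _ _ (.rel _ _ hs)

theorem meas_En [Countable V] (hr : ∀ p q, MeasurableSet {ω | r ω p q}) (n : ℕ) (p : V) :
    ∀ q, MeasurableSet {ω | En r n ω p q} := by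
  induction n with
  | zero => intro q; exact MeasurableSet.const _
  | succ n ih =>
    intro q
    have : {ω | En r (n + 1) ω p q} = ⋃ z, ({ω | En r n ω p z} ∩ ({ω | r ω z q} ∪ {ω | r ω q z})) := by
      ext ω
      simp [En]
    rw [this]
    exact MeasurableSet.iUnion fun z => (ih z).inter ((hr z q).union (hr q z))

theorem meas_eqv [Countable V] (hr : ∀ p q, MeasurableSet {ω | r ω p q}) (p q : V) :
    MeasurableSet {ω | Relation.EqvGen (r ω) p q} := by
  have : {ω | Relation.EqvGen (r ω) p q} = ⋃ n, {ω | En r n ω p q} := by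
    ext ω
    simp [eqv_iff]
  rw [this]
  exact MeasurableSet.iUnion fun n => meas_En r hr n p q

end meas

/-! ### the model -/

abbrev Cf : Type := ℤ × ℕ → Bool

theorem meas_adj (p q : ℤ × ℕ) : MeasurableSet {ω : Cf | OpenAdjH ω p q} := by
  have : {ω : Cf | OpenAdjH ω p q} = ⋃ k : ℤ × ℕ, ({ω | ω k = true} ∩
      {_ω | ((Even (k.1 + k.2) ∧ p = (k.1, k.2) ∧ q = (k.1 + 1, k.2 + 1)) ∨
      (¬ Even (k.1 + k.2) ∧ p = (k.1 + 1, k.2) ∧ q = (k.1, k.2 + 1)))}) := by
    ext ω
    simp only [Set.mem_setOf_eq, OpenAdjH, Set.mem_iUnion, Set.mem_inter_iff, Prod.exists]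
  rw [this]
  refine MeasurableSet.iUnion fun k => MeasurableSet.inter ?_ (MeasurableSet.const _)
  exact (measurable_pi_apply k : Measurable fun ω : Cf => ω k) (measurableSet_singleton true)

/-- translation of the cells by `2 i` columns -/
def tr (i : ℤ) : ℤ × ℕ ≃ ℤ × ℕ where
  toFun p := (p.1 + 2 * i, p.2)
  invFun p := (p.1 - 2 * i, p.2)
  left_inv p := by ext <;> simp
  right_inv p := by ext <;> simp

/-- translation of the configuration -/
def sh (i : ℤ) (ω : Cf) : Cf := fun p => ω (tr i p)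

theorem mp (i : ℤ) : MeasurePreserving (sh i) percH percH :=
  Pool.Agent.Y560.BE.mp_cm (PMF.uniformOfFintype Bool).toMeasure (tr i)

theorem tr_iter (n : ℕ) (p : ℤ × ℕ) : (tr 1)^[n] p = (p.1 + 2 * n, p.2) := by
  induction n with
  | zero => simp
  | succ n ih =>
    rw [Function.iterate_succ_apply', ih]
    simp only [tr, Equiv.coe_fn_mk, Prod.mk.injEq, and_true]
    push_cast
    ring

theorem sh_iter (n : ℕ) (ω : Cf) : (sh 1)^[n] ω = sh n ω := by
  have h := Pool.Agent.Y560.BE.cm_iter (Z := Bool) (tr 1) n ω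
  have e : (sh 1)^[n] ω = fun i => ω ((tr 1)^[n] i) := h
  rw [e]
  funext p
  rw [tr_iter]
  rfl

theorem erg : Ergodic (sh 1) percH := by
  classical
  refine Pool.Agent.Y560.BE.erg_cm (PMF.uniformOfFintype Bool).toMeasure (tr 1)
    (Pool.Agent.Y560.BE.move_off (tr 1) ?_)
  intro p n h
  rw [tr_iter] at h
  have := congrArg Prod.fst h
  simp only at this
  push_cast at this
  omega

/-- the boundary vertices `i` and `j` (at `(2 i, 0)` and `(2 j, 0)`) are joined -/
def J (ω : Cf) (i j : ℤ) : Prop := Relation.EqvGen (OpenAdjH ω) (2 * i, 0) (2 * j, 0)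

theorem J_refl (ω : Cf) (i : ℤ) : J ω i i := .refl _
theorem J_symm {ω : Cf} {i j : ℤ} (h : J ω i j) : J ω j i := .symm _ _ h
theorem J_trans {ω : Cf} {i j k : ℤ} (h : J ω i j) (h' : J ω j k) : J ω i k := .trans _ _ _ h h'

theorem meas_J (i j : ℤ) : MeasurableSet {ω : Cf | J ω i j} :=
  meas_eqv (fun ω => OpenAdjH ω) (fun p q => meas_adj p q) _ _

theorem adj_sh (i : ℤ) (ω : Cf) (p q : ℤ × ℕ) (h : OpenAdjH (sh i ω) p q) :
    OpenAdjH ω (tr i p) (tr i q) := by
  obtain ⟨a, t, hω, h⟩ := h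
  refine ⟨a + 2 * i, t, hω, ?_⟩
  rcases h with ⟨he, rfl, rfl⟩ | ⟨he, rfl, rfl⟩
  · left
    refine ⟨?_, rfl, ?_⟩
    · rw [Int.even_iff] at he ⊢
      omega
    · simp only [tr, Equiv.coe_fn_mk, Prod.mk.injEq, and_true]
      ring
  · right
    refine ⟨?_, ?_, rfl⟩
    · rw [Int.even_iff] at he ⊢
      omega
    · simp only [tr, Equiv.coe_fn_mk, Prod.mk.injEq, and_true]
      ring

theorem sh_sh (i j : ℤ) (ω : Cf) : sh i (sh j ω) = sh (i + j) ω := by
  funext p
  show ω (tr j (tr i p)) = ω (tr (i + j) p)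
  congr 1
  simp only [tr, Equiv.coe_fn_mk, Prod.mk.injEq, and_true]
  ring

theorem sh_zero (ω : Cf) : sh 0 ω = ω := by
  funext p
  show ω (tr 0 p) = ω p
  congr 1
  simp [tr]

theorem eqv_sh (i : ℤ) (ω : Cf) (p q : ℤ × ℕ) (h : Relation.EqvGen (OpenAdjH (sh i ω)) p q) :
    Relation.EqvGen (OpenAdjH ω) (tr i p) (tr i q) := by
  induction h with
  | rel x y h => exact .rel _ _ (adj_sh i ω x y h)
  | refl x => exact .refl _
  | symm x y _ ih => exact ih.symm
  | trans x y z _ _ ih1 ih2 => exact ih1.trans _ _ _ ih2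

theorem J_sh (i : ℤ) (ω : Cf) (a b : ℤ) : J (sh i ω) a b ↔ J ω (a + i) (b + i) := by
  have key : ∀ (i : ℤ) (ω : Cf) (a b : ℤ), J (sh i ω) a b → J ω (a + i) (b + i) := by
    intro i ω a b h
    have h2 := eqv_sh i ω _ _ h
    have e : ∀ c : ℤ, tr i (2 * c, 0) = (2 * (c + i), 0) := by
      intro c
      simp only [tr, Equiv.coe_fn_mk, Prod.mk.injEq, and_true]
      ring
    rw [e, e] at h2
    exact h2
  refine ⟨key i ω a b, fun h => ?_⟩
  have h1 : sh (-i) (sh i ω) = ω := by rw [sh_sh, neg_add_cancel, sh_zero]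
  have h2 := key (-i) (sh i ω) (a + i) (b + i) (by rw [h1]; exact h)
  simpa using h2

/-- the boundary vertices of the cluster of `i` -/
def T (ω : Cf) (i : ℤ) : Set ℤ := {j | J ω i j}

theorem even_of {ω : Cf} {p q : ℤ × ℕ} (h : Relation.EqvGen (OpenAdjH ω) p q)
    (hp : Even (p.1 + p.2)) : Even (q.1 + q.2) := by
  have h2 : ∀ a b, OpenAdjH ω a b → (Even (a.1 + a.2) ↔ Even (b.1 + b.2)) := by
    rintro a b ⟨c, t, _, ⟨he, rfl, rfl⟩ | ⟨he, rfl, rfl⟩⟩
    · simp only [Int.even_iff] at *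
      push_cast
      omega
    · simp only [Int.even_iff] at *
      push_cast
      omega
  exact (H731B.HP2.closed_eqv (fun a : ℤ × ℕ => Even (a.1 + a.2)) h2 h).1 hp

theorem bcl_eq (ω : Cf) : bclH ω = (fun j : ℤ => 2 * j) '' T ω 0 := by
  ext b
  constructor
  · intro h
    have h1 : Even b := by
      have := even_of (q := (b, 0)) h (by simp)
      simpa using this
    obtain ⟨j, hj⟩ := h1
    refine ⟨j, ?_, by simp only; omega⟩
    show Relation.EqvGen (OpenAdjH ω) (2 * 0, 0) (2 * j, 0)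
    rw [mul_zero, two_mul, ← hj]
    exact h
  · rintro ⟨j, hj, rfl⟩
    have : Relation.EqvGen (OpenAdjH ω) (2 * 0, 0) (2 * j, 0) := hj
    rw [mul_zero] at this
    exact this

theorem encard_bcl (ω : Cf) : (bclH ω).encard = (T ω 0).encard := by
  rw [bcl_eq]
  exact Function.Injective.encard_image (fun a b h => by simpa using h) _

theorem T_sh (i : ℤ) (ω : Cf) (a : ℤ) : T (sh i ω) a = (fun j => j - i) '' T ω (a + i) := by
  ext b
  simp only [T, Set.mem_setOf_eq, Set.mem_image]
  rw [J_sh]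
  constructor
  · intro h
    exact ⟨b + i, h, by ring⟩
  · rintro ⟨j, hj, rfl⟩
    rwa [sub_add_cancel]

theorem T_encard_sh (i : ℤ) (ω : Cf) (a : ℤ) : (T (sh i ω) a).encard = (T ω (a + i)).encard := by
  rw [T_sh]
  exact Function.Injective.encard_image (fun a b h => by simpa using h) _

/-- `i` is the first boundary vertex of its cluster -/
def First (ω : Cf) (i : ℤ) : Prop := ∀ j ∈ T ω i, i ≤ j

theorem First_sh (i : ℤ) (ω : Cf) (a : ℤ) : First (sh i ω) a ↔ First ω (a + i) := by
  unfold First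
  rw [T_sh]
  constructor
  · intro h j hj
    have := h (j - i) ⟨j, hj, rfl⟩
    omega
  · rintro h _ ⟨j, hj, rfl⟩
    have := h j hj
    simp only
    omega

theorem meas_First (i : ℤ) : MeasurableSet {ω : Cf | First ω i} := by
  have : {ω : Cf | First ω i} = ⋂ j : ℤ, ({ω | J ω i j}ᶜ ∪ {_ω | i ≤ j}) := by
    ext ω
    simp only [First, T, Set.mem_setOf_eq, Set.mem_iInter, Set.mem_union, Set.mem_compl_iff]
    exact forall_congr' fun j => imp_iff_not_or
  rw [this]
  exact MeasurableSet.iInter fun j => (meas_J i j).compl.union (MeasurableSet.const _)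

theorem meas_T (i : ℤ) (s : Set ℤ) : MeasurableSet {ω : Cf | T ω i = s} := by
  have : {ω : Cf | T ω i = s} = ⋂ j : ℤ, (({ω | J ω i j} ∩ {_ω | j ∈ s}) ∪
      ({ω | J ω i j}ᶜ ∩ {_ω | j ∉ s})) := by
    ext ω
    simp only [Set.mem_setOf_eq, Set.mem_iInter, Set.mem_union, Set.mem_inter_iff,
      Set.mem_compl_iff, Set.ext_iff, T]
    refine forall_congr' fun j => ?_
    tauto
  rw [this]
  exact MeasurableSet.iInter fun j => ((meas_J i j).inter (MeasurableSet.const _)).union
    ((meas_J i j).compl.inter (MeasurableSet.const _))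

theorem meas_card (i : ℤ) (k : ℕ) : MeasurableSet {ω : Cf | (T ω i).encard = k} := by
  have : {ω : Cf | (T ω i).encard = k} =
      ⋃ s : {s : Finset ℤ // s.card = k}, {ω | T ω i = (s.1 : Set ℤ)} := by
    ext ω
    simp only [Set.mem_setOf_eq, Set.mem_iUnion, Subtype.exists, exists_prop]
    constructor
    · intro h
      have hf : (T ω i).Finite := Set.finite_of_encard_eq_coe h
      refine ⟨hf.toFinset, ?_, by simp⟩
      rw [← hf.coe_toFinset, Set.encard_coe_eq_coe_finsetCard] at h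
      exact_mod_cast h
    · rintro ⟨s, hs, h⟩
      rw [h, Set.encard_coe_eq_coe_finsetCard, hs]
  rw [this]
  exact MeasurableSet.iUnion fun s => meas_T i _

end Pool.Agent.K3h14.BC
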