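import Pool.Agent.K3h14.BC.Freq
import Pool.Agent.H974R2.Circ

/-!
Boundary vertices arbitrarily far to the right are joined to the negative half-axis.
-/

set_option autoImplicit false

namespace Pool.Agent.K3h14.BC

open MeasureTheory Filter Topology
open H731B (OpenAdjH percH bclH esc)
open H731B.HP3 (cE ff percH_eq cE_even cE_odd)
open H974

/-- the edges of the half-plane -/
def HE : Set Edg := {e | 0 ≤ (src e).1 + (src e).2}

theorem last_exit {G : Set Edg} {u v : Vtx} (h : Reach G u v) (hu : u.1 + u.2 < 0) :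
    v.1 + v.2 < 0 ∨ ∃ w : Vtx, w.1 + w.2 = 0 ∧ Reach (G ∩ HE) w v ∧ ∃ w', Adj G w' w := by
  induction h with
  | refl => exact Or.inl hu
  | @tail w w' hw hs ih =>
    have hs' := hs
    obtain ⟨⟨x0, y0, bo⟩, heG, hcase⟩ := hs
    rcases ih with ih | ⟨z, hz0, hz1, hz2⟩
    · have h1 : w'.1 + w'.2 ≤ 0 := by
        cases bo
        · simp only [src_mk, tgt_false] at hcase
          rcases hcase with ⟨rfl, rfl⟩ | ⟨rfl, rfl⟩ <;> simp only at ih ⊢ <;> omega
        · simp only [src_mk, tgt_true] at hcase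
          rcases hcase with ⟨rfl, rfl⟩ | ⟨rfl, rfl⟩ <;> simp only at ih ⊢ <;> omega
      rcases lt_or_eq_of_le h1 with h2 | h2
      · exact Or.inl h2
      · exact Or.inr ⟨w', h2, Reach.refl _ _, w, hs'⟩
    · by_cases h1 : w'.1 + w'.2 < 0
      · exact Or.inl h1
      · right
        by_cases h2 : w.1 + w.2 < 0
        · have h3 : w'.1 + w'.2 = 0 := by
            cases bo
            · simp only [src_mk, tgt_false] at hcase
              rcases hcase with ⟨rfl, rfl⟩ | ⟨rfl, rfl⟩ <;> simp only at h1 h2 ⊢ <;> omega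
            · simp only [src_mk, tgt_true] at hcase
              rcases hcase with ⟨rfl, rfl⟩ | ⟨rfl, rfl⟩ <;> simp only at h1 h2 ⊢ <;> omega
          exact ⟨w', h3, Reach.refl _ _, w, hs'⟩
        · refine ⟨z, hz0, hz1.trans (Adj.reach ⟨_, ⟨heG, ?_⟩, hcase⟩), hz2⟩
          show (0:ℤ) ≤ x0 + y0
          cases bo
          · simp only [src_mk, tgt_false] at hcase
            rcases hcase with ⟨rfl, rfl⟩ | ⟨rfl, rfl⟩ <;> simp only at h1 h2 <;> omega
          · simp only [src_mk, tgt_true] at hcase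
            rcases hcase with ⟨rfl, rfl⟩ | ⟨rfl, rfl⟩ <;> simp only at h1 h2 <;> omega

theorem adj_RE {F : Set Edg} {a b c d : ℤ} {u v : Vtx} (h : Adj (F ∩ ↑(RE a b c d)) u v) :
    (a ≤ v.1 ∧ v.1 ≤ b) ∧ (c ≤ v.2 ∧ v.2 ≤ d) := by
  obtain ⟨⟨x0, y0, bo⟩, ⟨-, he⟩, hcase⟩ := h
  rw [Finset.mem_coe] at he
  cases bo
  · rw [mem_RE_false] at he
    simp only [src_mk, tgt_false] at hcase
    rcases hcase with ⟨rfl, rfl⟩ | ⟨rfl, rfl⟩ <;> simp only <;> omega
  · rw [mem_RE_true] at he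
    simp only [src_mk, tgt_true] at hcase
    rcases hcase with ⟨rfl, rfl⟩ | ⟨rfl, rfl⟩ <;> simp only <;> omega

/-- the two crossings give a connection in the half-plane -/
theorem two_cross {n : ℤ} (hn : 0 < n) {F : Finset Edg}
    (h1 : LRc (-(3 * n) - 1) (3 * n) n (3 * n) F) (h2 : TBc n (3 * n) (-(3 * n) - 1) (3 * n) F) :
    ∃ i j : ℤ, i < 0 ∧ n ≤ j ∧ Reach (↑F ∩ HE) (i, -i) (j, -j) := by
  obtain ⟨y, y', hy, hy', hr⟩ := h1
  obtain ⟨x, x', hx, hx', hs⟩ := h2
  have hr1 := hr.mono (Set.inter_subset_inter_right (↑F)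
    (by exact_mod_cast LRE_subset_RE : (↑(LRE (-(3 * n) - 1) (3 * n) n (3 * n)) : Set Edg) ⊆
      ↑(RE (-(3 * n) - 1) (3 * n) n (3 * n))))
  have hs1 := hs.mono (Set.inter_subset_inter_right (↑F)
    (by exact_mod_cast TBE_subset_RE : (↑(TBE n (3 * n) (-(3 * n) - 1) (3 * n)) : Set Edg) ⊆
      ↑(RE n (3 * n) (-(3 * n) - 1) (3 * n))))
  obtain ⟨y1, y2, k1, k2, k3, k4⟩ := sub_LR (a := n) (b := 3 * n) (c := n) (d := 3 * n) (by omega)
    (by rintro x y ⟨-, h⟩ _ _; simp only [Finset.mem_coe, mem_RE_true] at h; omega)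
    (by rintro x y ⟨-, h⟩ _ _; simp only [Finset.mem_coe, mem_RE_false] at h; omega) hr1
    (by simp only; omega) (by simp only; omega)
  obtain ⟨x1, x2, l1, l2, l3, l4⟩ := sub_TB (a := n) (b := 3 * n) (c := n) (d := 3 * n) (by omega)
    (by rintro x y ⟨-, h⟩ _ _; simp only [Finset.mem_coe, mem_RE_false] at h; omega)
    (by rintro x y ⟨-, h⟩ _ _; simp only [Finset.mem_coe, mem_RE_true] at h; omega) hs1
    (by simp only; omega) (by simp only; omega)
  have m := crossings_meet (show n < 3 * n by omega) (show n ≤ 3 * n by omega) (F := ↑F) k2 l1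
    (k3.mono (by rintro e ⟨⟨h7, -⟩, h8⟩; exact ⟨h7, h8⟩))
    (l3.mono (by rintro e ⟨⟨h7, -⟩, h8⟩; exact ⟨h7, h8⟩))
  have m' : Reach (↑F ∩ HE) (n, y1) (x1, n) := by
    refine m.mono ?_
    rintro ⟨x, y, bo⟩ ⟨h7, h8⟩
    refine ⟨h7, ?_⟩
    show (0:ℤ) ≤ x + y
    rw [Finset.mem_coe] at h8
    cases bo
    · rw [mem_RE_false] at h8; omega
    · rw [mem_RE_true] at h8; omega
  rcases last_exit k4 (by simp only; omega) with h | ⟨w, hw0, hw1, w', hw2⟩
  · simp only at h; omega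
  rcases last_exit l4 (by simp only; omega) with h | ⟨z, hz0, hz1, z', hz2⟩
  · simp only at h; omega
  have hw3 := adj_RE hw2
  have hz3 := adj_RE hz2
  refine ⟨w.1, z.1, by omega, by omega, ?_⟩
  have ew : (w.1, -w.1) = w := by ext <;> simp only; omega
  have ez : (z.1, -z.1) = z := by ext <;> simp only; omega
  rw [ew, ez]
  exact (hw1.mono (by rintro e ⟨⟨h7, -⟩, h8⟩; exact ⟨h7, h8⟩)).trans (m'.trans
    (hz1.mono (by rintro e ⟨⟨h7, -⟩, h8⟩; exact ⟨h7, h8⟩)).symm)

/-- the vertex of the half-plane -/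
def iv (u : Vtx) : ℤ × ℕ := (u.1 - u.2, (u.1 + u.2).toNat)

theorem adj_back {ω : sqLattice.edgeSet → Bool} {u v : Vtx} (h : Adj (opn ω ∩ HE) u v) :
    Relation.EqvGen (OpenAdjH (fun k => ω (ff k))) (iv u) (iv v) := by
  obtain ⟨⟨x, y, bo⟩, ⟨he, hH⟩, hcase⟩ := h
  have hH' : (0:ℤ) ≤ x + y := hH
  have key : OpenAdjH (fun k => ω (ff k)) (iv (src (x, y, bo))) (iv (tgt (x, y, bo))) := by
    cases bo
    · refine ⟨x - y - 1, (x + y).toNat, ?_, Or.inr ⟨?_, ?_, ?_⟩⟩
      · have hc : cE (x - y - 1, (x + y).toNat) = (x, y, false) := by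
          rw [cE_odd]
          · simp only [Prod.mk.injEq, and_true]
            constructor <;> omega
          · rw [Int.even_iff]
            omega
        show ω (toE (cE (x - y - 1, (x + y).toNat))) = true
        rw [hc]
        exact he
      · rw [Int.even_iff]
        omega
      · simp only [iv, src_mk, Prod.mk.injEq, and_true]
        omega
      · simp only [iv, tgt_false, Prod.mk.injEq]
        constructor <;> omega
    · refine ⟨x - y, (x + y).toNat, ?_, Or.inl ⟨?_, ?_, ?_⟩⟩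
      · have hc : cE (x - y, (x + y).toNat) = (x, y, true) := by
          rw [cE_even]
          · simp only [Prod.mk.injEq, and_true]
            constructor <;> omega
          · rw [Int.even_iff]
            omega
        show ω (toE (cE (x - y, (x + y).toNat))) = true
        rw [hc]
        exact he
      · rw [Int.even_iff]
        omega
      · simp only [iv, src_mk]
      · simp only [iv, tgt_true, Prod.mk.injEq]
        constructor <;> omega
  rcases hcase with ⟨h1, h2⟩ | ⟨h1, h2⟩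
  · rw [← h1, ← h2]
    exact .rel _ _ key
  · rw [← h1, ← h2]
    exact .symm _ _ (.rel _ _ key)

theorem reach_back {ω : sqLattice.edgeSet → Bool} {u v : Vtx} (h : Reach (opn ω ∩ HE) u v) :
    Relation.EqvGen (OpenAdjH (fun k => ω (ff k))) (iv u) (iv v) := by
  induction h with
  | refl => exact .refl _
  | tail _ hs ih => exact ih.trans _ _ _ (adj_back hs)

/-- a boundary vertex at distance at least `m` to the right is joined to the negative half-axis -/
def Gm (m : ℕ) : Set Cf := {ω | ∃ i j : ℤ, i < 0 ∧ (m : ℤ) ≤ j ∧ J ω i j}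

theorem meas_Gm (m : ℕ) : MeasurableSet (Gm m) := by
  have : Gm m = ⋃ i : ℤ, ⋃ j : ℤ, ({_ω : Cf | i < 0 ∧ (m:ℤ) ≤ j} ∩ {ω : Cf | J ω i j}) := by
    ext ω
    simp only [Gm, Set.mem_setOf_eq, Set.mem_iUnion, Set.mem_inter_iff, and_assoc]
  rw [this]
  exact MeasurableSet.iUnion fun i => MeasurableSet.iUnion fun j =>
    (MeasurableSet.const _).inter (meas_J i j)

theorem Gm_anti {m n : ℕ} (h : m ≤ n) : Gm n ⊆ Gm m := by
  rintro ω ⟨i, j, h1, h2, h3⟩
  exact ⟨i, j, h1, le_trans (by exact_mod_cast h) h2, h3⟩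

theorem Gm_ge (m : ℕ) (hm : 0 < m) : (1/2:ℝ)^94 ≤ percH.real (Gm m) := by
  obtain ⟨n, hn⟩ : ∃ n : ℤ, n = (m : ℤ) := ⟨_, rfl⟩
  have hn0 : 0 < n := by omega
  set S : Finset Edg := RE (-(3 * n) - 1) (3 * n) (-(3 * n) - 1) (3 * n) with hS
  have hS1 : LRE (-(3 * n) - 1) (3 * n) n (3 * n) ⊆ S :=
    LRE_subset_RE.trans (RE_subset le_rfl le_rfl (by omega) le_rfl)
  have hS2 : TBE n (3 * n) (-(3 * n) - 1) (3 * n) ⊆ S :=
    TBE_subset_RE.trans (RE_subset (by omega) le_rfl le_rfl le_rfl)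
  have h1 := Pr_harris (okq (q := 1/2) (by norm_num) (by norm_num)) (S := S)
    (LRc_incr S (-(3 * n) - 1) (3 * n) n (3 * n)) (TBc_incr S n (3 * n) (-(3 * n) - 1) (3 * n))
  rw [pr_LRc (1/2) hS1, pr_TBc (1/2) hS2] at h1
  have h2 : (1/2:ℝ)^47 ≤ hh (1/2) (3 * n - (-(3 * n) - 1)) (3 * n - n) :=
    rsw hn0 (by omega) (by omega) (by omega)
  have h3 : (1/2:ℝ)^94 ≤ Pr (fun _ => (1/2:ℝ)) S (fun F => LRc (-(3 * n) - 1) (3 * n) n (3 * n) F ∧
      TBc n (3 * n) (-(3 * n) - 1) (3 * n) F) := by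
    refine le_trans ?_ h1
    have h4 : (0:ℝ) ≤ (1/2)^47 := by positivity
    calc (1/2:ℝ)^94 = (1/2)^47 * (1/2)^47 := by rw [← pow_add]
      _ ≤ _ := mul_le_mul h2 h2 h4 (h4.trans h2)
  have h5 := law_event hlf S (fun F => LRc (-(3 * n) - 1) (3 * n) n (3 * n) F ∧
      TBc n (3 * n) (-(3 * n) - 1) (3 * n) F)
  have h6 : ((hlf : unitInterval) : ℝ) = 1/2 := rfl
  rw [h6] at h5
  rw [← h5] at h3
  refine h3.trans ?_
  have hf : Measurable (fun (ω : sqLattice.edgeSet → Bool) (k : ℤ × ℕ) => ω (ff k)) :=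
    measurable_pi_iff.mpr fun k => measurable_pi_apply (ff k)
  rw [percH_eq, map_measureReal_apply hf (meas_Gm m)]
  refine measureReal_mono ?_
  rintro ω ⟨g1, g2⟩
  obtain ⟨i, j, hi, hj, hr⟩ := two_cross hn0 g1 g2
  refine ⟨i, j, hi, hn ▸ hj, ?_⟩
  have hr' := reach_back (ω := ω) (hr.mono (by
    rw [FF_coe]
    rintro e ⟨⟨h7, -⟩, h8⟩
    exact ⟨h7, h8⟩))
  have e : ∀ c : ℤ, iv (c, -c) = (2 * c, 0) := by
    intro c
    simp only [iv, Prod.mk.injEq]
    constructor
    · ring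
    · simp
  rw [e, e] at hr'
  exact hr'

theorem far_ae : ∀ᵐ ω ∂percH, ∀ m : ℕ, ω ∈ Gm m := by
  set G : Set Cf := ⋂ m, Gm m with hG
  have hGm : MeasurableSet G := MeasurableSet.iInter meas_Gm
  have hpos : (1/2:ℝ)^94 ≤ percH.real G := by
    have hanti : Antitone Gm := fun m n h => Gm_anti h
    have h1 := tendsto_measure_iInter_atTop (μ := percH) (s := Gm)
      (fun m => (meas_Gm m).nullMeasurableSet) hanti ⟨0, measure_ne_top _ _⟩
    have h2 : Tendsto (fun m => percH.real (Gm m)) atTop (𝓝 (percH.real G)) :=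
      (ENNReal.tendsto_toReal (measure_ne_top _ _)).comp h1
    refine ge_of_tendsto h2 ?_
    filter_upwards [eventually_gt_atTop 0] with m hm
    exact Gm_ge m hm
  have hinv : G ⊆ sh 1 ⁻¹' G := by
    intro ω hω
    rw [Set.mem_preimage]
    refine Set.mem_iInter.2 fun m => ?_
    obtain ⟨i, j, h1, h2, h3⟩ := Set.mem_iInter.1 hω (m + 1)
    refine ⟨i - 1, j - 1, by omega, by push_cast at h2; omega, ?_⟩
    rw [J_sh, sub_add_cancel, sub_add_cancel]
    exact h3
  have h0 := erg.ae_empty_or_univ_of_ae_le_preimage' hGm.nullMeasurableSet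
    (Filter.Eventually.of_forall hinv) (measure_ne_top _ _)
  rcases h0 with h | h
  · exfalso
    have h1 : percH.real G = 0 := by
      rw [measureReal_congr h]
      simp
    rw [h1] at hpos
    exact absurd hpos (by norm_num)
  · have h1 : ∀ᵐ ω ∂percH, ω ∈ G := by
      filter_upwards [h] with ω hω
      exact (iff_of_eq hω).2 trivial
    filter_upwards [h1] with ω hω
    exact fun m => Set.mem_iInter.1 hω m

end Pool.Agent.K3h14.BC
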