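import Pool.Agent.K3h14.BC.Law

/-!
Frequencies along the boundary.
-/

set_option autoImplicit false

namespace Pool.Agent.K3h14.BC

open MeasureTheory Filter Topology
open H731B (OpenAdjH percH bclH esc)

open Classical in
/-- the number of `i < m` such that the configuration seen from `i` is in `E` -/
noncomputable def cnt (E : Set Cf) (ω : Cf) (m : ℕ) : ℕ :=
  ((Finset.range m).filter (fun i : ℕ => sh i ω ∈ E)).card

theorem freq {E : Set Cf} (hE : MeasurableSet E) :
    ∀ᵐ ω ∂percH, Tendsto (fun m : ℕ => (cnt E ω m : ℝ) / m) atTop (𝓝 (percH.real E)) := by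
  classical
  have h := Pool.Agent.H165R3.birkhoff erg (E.indicator fun _ => (1:ℝ))
    (measurable_const.indicator hE) ⟨1, fun x => by
      by_cases hx : x ∈ E
      · simp [hx]
      · simp [hx]⟩
  filter_upwards [h] with ω hω
  rw [integral_indicator_const _ hE, smul_eq_mul, mul_one] at hω
  refine hω.congr fun m => ?_
  rw [div_eq_inv_mul]
  congr 1
  unfold cnt
  rw [Finset.card_filter]
  push_cast
  refine Finset.sum_congr rfl fun i _ => ?_
  rw [sh_iter]
  by_cases hx : sh (i : ℤ) ω ∈ E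
  · rw [Set.indicator_of_mem hx, if_pos hx]
  · rw [Set.indicator_of_notMem hx, if_neg hx]

theorem meas_esc (R : ℕ) : MeasurableSet (esc R) := by
  have : esc R = ⋃ p : ℤ × ℕ, ({_ω : Cf | (R : ℤ) ≤ |p.1| ∨ R ≤ p.2} ∩
      {ω : Cf | Relation.EqvGen (OpenAdjH ω) (0, 0) p}) := by
    ext ω
    simp only [esc, Set.mem_setOf_eq, Set.mem_iUnion, Set.mem_inter_iff]
  rw [this]
  exact MeasurableSet.iUnion fun p => (MeasurableSet.const _).inter
    (meas_eqv (fun ω => OpenAdjH ω) (fun p q => meas_adj p q) _ _)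

theorem meas_D (k : ℕ) : MeasurableSet (D k) := by
  have : D k = {ω : Cf | First ω 0} ∩ (⋃ j : {j : ℕ // j ≤ k}, {ω : Cf | (T ω 0).encard = (j.1 : ℕ)})ᶜ := by
    ext ω
    simp only [D, Set.mem_setOf_eq, Set.mem_inter_iff, Set.mem_compl_iff, Set.mem_iUnion,
      Subtype.exists, exists_prop, not_exists, not_and]
    refine and_congr_right fun _ => ?_
    constructor
    · intro h j hj hc
      rw [hc] at h
      have : k < j := by exact_mod_cast h
      omega
    · intro h
      by_contra hc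
      rw [not_lt] at hc
      have hne : (T ω 0).encard ≠ ⊤ := ne_top_of_le_ne_top (ENat.coe_ne_top k) hc
      obtain ⟨j, hj⟩ := ENat.ne_top_iff_exists.1 hne
      rw [← hj] at hc
      have : j ≤ k := by exact_mod_cast hc
      exact h j this hj.symm
  rw [this]
  exact (meas_First 0).inter (MeasurableSet.iUnion fun j : {j : ℕ // j ≤ k} => meas_card 0 j.1).compl

/-- almost surely the cluster of `0` has finitely many boundary vertices -/
theorem fin0 : ∀ᵐ ω ∂percH, ∃ R, ω ∉ esc R := by
  rw [ae_iff]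
  have h : ∀ R, percH.real {ω | ¬ ∃ R, ω ∉ esc R} ≤ percH.real (esc R) := by
    intro R
    refine measureReal_mono ?_
    intro ω hω
    by_contra hc
    exact hω ⟨R, hc⟩
  have h2 : percH.real {ω | ¬ ∃ R, ω ∉ esc R} ≤ 0 :=
    ge_of_tendsto H731B.esc_tendsto (Eventually.of_forall h)
  exact (measureReal_eq_zero_iff (measure_ne_top _ _)).1 (le_antisymm h2 measureReal_nonneg)

theorem fin_all : ∀ᵐ ω ∂percH, ∀ i, (T ω i).Finite := by
  rw [ae_all_iff]
  intro i
  have h := (mp i).quasiMeasurePreserving.ae fin0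
  filter_upwards [h] with ω hω
  obtain ⟨R, hR⟩ := hω
  have h1 := (Finset.finite_toSet _).subset (T_small hR)
  have h2 := T_encard_sh i ω 0
  rw [zero_add] at h2
  rw [← Set.encard_lt_top_iff, ← h2, Set.encard_lt_top_iff]
  exact h1

/-- the boundary vertices of the clusters of the negative half-axis have density zero -/
theorem neg_freq : ∀ᵐ ω ∂percH, Tendsto (fun m : ℕ =>
    ((open Classical in ((Finset.range m).filter (fun i : ℕ => ∃ j < 0, J ω i j)).card : ℕ) : ℝ) / m)
    atTop (𝓝 0) := by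
  classical
  have h : ∀ᵐ ω ∂percH, ∀ R : ℕ, Tendsto (fun m : ℕ => (cnt (esc R) ω m : ℝ) / m) atTop
      (𝓝 (percH.real (esc R))) := ae_all_iff.2 fun R => freq (meas_esc R)
  filter_upwards [h] with ω hω
  have key : ∀ R m : ℕ, ((Finset.range m).filter (fun i : ℕ => ∃ j < 0, J ω i j)).card ≤
      R + cnt (esc R) ω m := by
    intro R m
    have hsub : (Finset.range m).filter (fun i : ℕ => ∃ j < 0, J ω i j) ⊆
        Finset.range R ∪ (Finset.range m).filter (fun i : ℕ => sh i ω ∈ esc R) := by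
      intro i hi
      rw [Finset.mem_filter] at hi
      rw [Finset.mem_union]
      by_cases hiR : i < R
      · exact Or.inl (Finset.mem_range.2 hiR)
      · right
        rw [Finset.mem_filter]
        refine ⟨hi.1, ?_⟩
        obtain ⟨j, hj, hJ⟩ := hi.2
        refine esc_of_mem (j := j - i) ?_ ?_
        · show J (sh i ω) 0 (j - i)
          rw [J_sh, zero_add, sub_add_cancel]
          exact hJ
        · rcases abs_cases (2 * (j - (i:ℤ))) with ⟨h1, h2⟩ | ⟨h1, h2⟩ <;> omega
    refine (Finset.card_le_card hsub).trans ((Finset.card_union_le _ _).trans ?_)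
    rw [Finset.card_range]
    rfl
  rw [Metric.tendsto_atTop]
  intro ε hε
  obtain ⟨R, hR⟩ := (H731B.esc_tendsto.eventually_lt_const (show (0:ℝ) < ε / 2 by positivity)).exists
  have h2 := (hω R).eventually_lt_const hR
  have h3 : Tendsto (fun m : ℕ => (R : ℝ) / m) atTop (𝓝 0) :=
    tendsto_const_nhds.div_atTop tendsto_natCast_atTop_atTop
  have h4 := h3.eventually_lt_const (show (0:ℝ) < ε / 2 by positivity)
  obtain ⟨N, hN⟩ := eventually_atTop.1 (h2.and (h4.and (eventually_ge_atTop 1)))
  refine ⟨N, fun m hm => ?_⟩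
  obtain ⟨h5, h6, h7⟩ := hN m hm
  have hm0 : (0:ℝ) < m := by exact_mod_cast h7
  have h8 : (((Finset.range m).filter (fun i : ℕ => ∃ j < 0, J ω i j)).card : ℝ) ≤
      R + cnt (esc R) ω m := by exact_mod_cast key R m
  rw [Real.dist_eq, sub_zero, abs_of_nonneg (by positivity)]
  calc (((Finset.range m).filter (fun i : ℕ => ∃ j < 0, J ω i j)).card : ℝ) / m
      ≤ (R + cnt (esc R) ω m) / m := by gcongr
    _ = R / m + cnt (esc R) ω m / m := by rw [add_div]
    _ < ε := by linarith

theorem mem_D_sh (i : ℤ) (ω : Cf) (k : ℕ) : sh i ω ∈ D k ↔ First ω i ∧ (k : ℕ∞) < (T ω i).encard := by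
  unfold D
  rw [Set.mem_setOf_eq, First_sh, T_encard_sh, zero_add]

theorem D_freq : ∀ᵐ ω ∂percH, ∀ k : ℕ, Tendsto (fun m : ℕ => (cnt (D k) ω m : ℝ) / m) atTop
    (𝓝 (s k / 2)) := by
  rw [ae_all_iff]
  intro k
  have h := freq (meas_D k)
  rwa [D_real k] at h

end Pool.Agent.K3h14.BC
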