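import Pool.Agent.K3h14.BC.Base

/-!
The law of the size of the cluster of its first boundary vertex.
-/

set_option autoImplicit false

namespace Pool.Agent.K3h14.BC

open MeasureTheory Filter Topology
open H731B (OpenAdjH percH bclH esc)

instance : IsProbabilityMeasure percH := by unfold percH; infer_instance

/-- the cluster of `0` has exactly `k` boundary vertices -/
def A (k : ℕ) : Set Cf := {ω | (T ω 0).encard = k}

/-- the same, and `0` is the first one -/
def B (k : ℕ) : Set Cf := {ω | First ω 0 ∧ (T ω 0).encard = k}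

theorem meas_A (k : ℕ) : MeasurableSet (A k) := meas_card 0 k
theorem meas_B (k : ℕ) : MeasurableSet (B k) := (meas_First 0).inter (meas_card 0 k)

theorem T_eq {ω : Cf} {i j : ℤ} (h : J ω i j) : T ω i = T ω j := by
  ext l
  exact ⟨fun h' => J_trans (J_symm h) h', fun h' => J_trans h h'⟩

theorem mem_T_self (ω : Cf) (i : ℤ) : i ∈ T ω i := J_refl ω i

theorem exists_first {ω : Cf} {i : ℤ} (h : (T ω i).Finite) : ∃ j ∈ T ω i, First ω j := by
  obtain ⟨j, hj, hmin⟩ := Set.exists_min_image (T ω i) id h ⟨i, mem_T_self ω i⟩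
  refine ⟨j, hj, fun l hl => hmin l ?_⟩
  rwa [T_eq (show J ω i j from hj)]

theorem first_unique {ω : Cf} {i j l : ℤ} (h1 : j ∈ T ω i) (h2 : l ∈ T ω i) (f1 : First ω j)
    (f2 : First ω l) : j = l := by
  have h3 : l ∈ T ω j := J_trans (J_symm h1) h2
  have h4 : j ∈ T ω l := J_symm h3
  exact le_antisymm (f1 l h3) (f2 j h4)

open scoped ENNReal in
theorem transport (k : ℕ) : percH (A k) = k * percH (B k) := by
  classical
  set Ai : ℤ → Set Cf := fun i => {ω | (T ω 0).encard = k ∧ i ∈ T ω 0 ∧ First ω i} with hAi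
  have hAim : ∀ i, MeasurableSet (Ai i) := fun i =>
    (meas_card 0 k).inter ((meas_J 0 i).inter (meas_First i))
  have hU : A k = ⋃ i, Ai i := by
    ext ω
    simp only [Set.mem_iUnion, hAi, Set.mem_setOf_eq, A]
    constructor
    · intro h
      obtain ⟨j, hj, hf⟩ := exists_first (Set.finite_of_encard_eq_coe h)
      exact ⟨j, h, hj, hf⟩
    · rintro ⟨i, h, _⟩
      exact h
  have hd : Pairwise (Function.onFun Disjoint Ai) := by
    intro i j hij
    refine Set.disjoint_left.2 ?_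
    rintro ω ⟨_, h1, f1⟩ ⟨_, h2, f2⟩
    exact hij (first_unique h1 h2 f1 f2)
  have hshift : ∀ i, percH (Ai i) = percH (B k ∩ {ω | J ω 0 (-i)}) := by
    intro i
    have e : Ai i = sh i ⁻¹' (B k ∩ {ω | J ω 0 (-i)}) := by
      ext ω
      simp only [hAi, Set.mem_setOf_eq, Set.mem_preimage, Set.mem_inter_iff, B]
      rw [First_sh, T_encard_sh, J_sh, zero_add, neg_add_cancel]
      constructor
      · rintro ⟨h1, h2, h3⟩
        refine ⟨⟨h3, ?_⟩, J_symm h2⟩
        rwa [← T_eq (show J ω 0 i from h2)]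
      · rintro ⟨⟨h3, h1⟩, h2⟩
        refine ⟨?_, J_symm h2, h3⟩
        rwa [← T_eq h2]
    rw [e]
    exact (mp i).measure_preimage (((meas_B k).inter (meas_J 0 (-i))).nullMeasurableSet)
  have hmi : ∀ i : ℤ, MeasurableSet {ω : Cf | J ω 0 (-i)} := fun i => meas_J 0 (-i)
  rw [hU, measure_iUnion hd hAim]
  calc ∑' i, percH (Ai i)
      = ∑' i : ℤ, ∫⁻ ω in B k, ({ω | J ω 0 (-i)} : Set Cf).indicator (fun _ => (1:ℝ≥0∞)) ω ∂percH := by
        refine tsum_congr fun i => ?_
        rw [hshift i, lintegral_indicator_const (hmi i), one_mul, Measure.restrict_apply (hmi i),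
          Set.inter_comm]
    _ = ∫⁻ ω in B k, ∑' i : ℤ, ({ω | J ω 0 (-i)} : Set Cf).indicator (fun _ => (1:ℝ≥0∞)) ω ∂percH := by
        rw [lintegral_tsum]
        intro i
        exact (measurable_const.indicator (hmi i)).aemeasurable
    _ = ∫⁻ ω in B k, (k : ℝ≥0∞) ∂percH := by
        refine setLIntegral_congr_fun (meas_B k) fun ω hω => ?_
        have h1 : (∑' i : ℤ, ({ω | J ω 0 (-i)} : Set Cf).indicator (fun _ => (1:ℝ≥0∞)) ω) =
            ∑' i : ℤ, (T ω 0).indicator (fun _ => (1:ℝ≥0∞)) i := by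
          rw [← (Equiv.neg ℤ).tsum_eq]
          refine tsum_congr fun i => ?_
          simp only [Equiv.neg_apply, Set.indicator, Set.mem_setOf_eq, T, neg_neg]
        rw [h1, ← tsum_subtype, ENNReal.tsum_set_one, hω.2]
        rfl
    _ = k * percH (B k) := by
        rw [setLIntegral_const]

/-- the tail of the size of the cluster of `0` -/
noncomputable def t (k : ℕ) : ℝ := ((2 * k).choose k : ℝ) * (3 * k - 1) / ((2 * k - 1) * 4 ^ k)

/-- `Cat_k / 4^k` -/
noncomputable def s (k : ℕ) : ℝ := (catalan k : ℝ) / 4 ^ k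

theorem s_succ (k : ℕ) : s (k + 1) = s k * (2 * k + 1) / (2 * (k + 2)) := by
  have h1 : (((k:ℝ) + 1) + 1) * catalan (k + 1) = ((k + 1).centralBinom : ℝ) := by
    exact_mod_cast succ_mul_catalan_eq_centralBinom (k + 1)
  have h2 : ((k:ℝ) + 1) * catalan k = (k.centralBinom : ℝ) := by
    exact_mod_cast succ_mul_catalan_eq_centralBinom k
  have h3 : ((k:ℝ) + 1) * ((k + 1).centralBinom : ℝ) = 2 * (2 * k + 1) * k.centralBinom := by
    exact_mod_cast Nat.succ_mul_centralBinom_succ k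
  have h4 : (catalan (k + 1) : ℝ) = 2 * (2 * k + 1) * catalan k / (k + 2) := by
    have hk : (k:ℝ) + 1 ≠ 0 := by positivity
    have hk2 : (k:ℝ) + 2 ≠ 0 := by positivity
    rw [eq_div_iff hk2]
    have : ((k:ℝ) + 1) * (((k:ℝ) + 1 + 1) * catalan (k + 1)) =
        ((k:ℝ) + 1) * (2 * (2 * k + 1) * catalan k) := by
      rw [h1, h3, ← h2]
      ring
    have := mul_left_cancel₀ hk this
    linarith
  unfold s
  rw [h4, pow_succ]
  field_simp
  ring

theorem t_eq (k : ℕ) (hk : 1 ≤ k) : t k = s k * (k + 1) * (3 * k - 1) / (2 * k - 1) := by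
  have h2 : ((k:ℝ) + 1) * catalan k = (((2 * k).choose k : ℕ) : ℝ) := by
    have := succ_mul_catalan_eq_centralBinom k
    rw [Nat.centralBinom] at this
    exact_mod_cast this
  have hk1 : (1:ℝ) ≤ k := by exact_mod_cast hk
  have h3 : (2 * (k:ℝ) - 1) ≠ 0 := by linarith
  unfold t s
  rw [← h2]
  field_simp

theorem t_sub (k : ℕ) (hk : 1 ≤ k) : t k - t (k + 1) = k * ((s (k - 1) - s k) / 2) := by
  obtain ⟨m, rfl⟩ : ∃ m, k = m + 1 := ⟨k - 1, by omega⟩
  have hm : (0:ℝ) ≤ m := Nat.cast_nonneg m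
  have h1 : (2 * ((m:ℝ) + 1) - 1) ≠ 0 := by
    have : (0:ℝ) < 2 * (m + 1) - 1 := by linarith
    exact this.ne'
  have h2 : (2 * (((m:ℝ) + 1) + 1) - 1) ≠ 0 := by
    have : (0:ℝ) < 2 * ((m + 1) + 1) - 1 := by linarith
    exact this.ne'
  have h1' : (2 * (m:ℝ) + 1) ≠ 0 := by positivity
  have h2' : (2 * (m:ℝ) + 3) ≠ 0 := by positivity
  rw [t_eq _ hk, t_eq _ (by omega), s_succ (m + 1), s_succ m, Nat.add_sub_cancel]
  push_cast
  have e1 : (2 * ((m:ℝ) + 1) - 1) = 2 * m + 1 := by ring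
  have e2 : (2 * (((m:ℝ) + 1) + 1) - 1) = 2 * m + 3 := by ring
  rw [e1, e2]
  field_simp
  ring

theorem A_real (k : ℕ) (hk : 1 ≤ k) : percH.real (A k) = t k - t (k + 1) := by
  have h1 := H731B.half_plane hk
  have h2 := H731B.half_plane (k := k + 1) (by omega)
  simp only [encard_bcl] at h1 h2
  have hm : MeasurableSet {ω : Cf | ((k + 1 : ℕ) : ℕ∞) ≤ (T ω 0).encard} := by
    have : {ω : Cf | ((k + 1 : ℕ) : ℕ∞) ≤ (T ω 0).encard} =
        (⋃ j : {j : ℕ // j ≤ k}, {ω : Cf | (T ω 0).encard = (j : ℕ)})ᶜ := by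
      ext ω
      simp only [Set.mem_setOf_eq, Set.mem_compl_iff, Set.mem_iUnion, Subtype.exists, exists_prop,
        not_exists, not_and]
      constructor
      · intro h j hj hc
        rw [hc] at h
        have : k + 1 ≤ j := by exact_mod_cast h
        omega
      · intro h
        by_contra hc
        rw [not_le] at hc
        obtain ⟨j, hj⟩ := ENat.ne_top_iff_exists.1 hc.ne_top
        rw [← hj] at hc
        have : j < k + 1 := by exact_mod_cast hc
        exact h j (by omega) hj.symm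
    rw [this]
    exact (MeasurableSet.iUnion fun j : {j : ℕ // j ≤ k} => meas_card 0 j.1).compl
  have e : A k = {ω : Cf | ((k : ℕ) : ℕ∞) ≤ (T ω 0).encard} \
      {ω : Cf | ((k + 1 : ℕ) : ℕ∞) ≤ (T ω 0).encard} := by
    ext ω
    simp only [A, Set.mem_setOf_eq, Set.mem_diff, not_le]
    constructor
    · intro h
      rw [h]
      exact ⟨le_rfl, by exact_mod_cast Nat.lt_succ_self k⟩
    · rintro ⟨h3, h4⟩
      obtain ⟨j, hj⟩ := ENat.ne_top_iff_exists.1 h4.ne_top
      rw [← hj] at h3 h4 ⊢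
      have h5 : k ≤ j := by exact_mod_cast h3
      have h6 : j < k + 1 := by exact_mod_cast h4
      have : j = k := by omega
      rw [this]
  have hsub : {ω : Cf | ((k + 1 : ℕ) : ℕ∞) ≤ (T ω 0).encard} ⊆
      {ω : Cf | ((k : ℕ) : ℕ∞) ≤ (T ω 0).encard} := by
    intro ω h
    exact le_trans (show ((k : ℕ) : ℕ∞) ≤ ((k + 1 : ℕ) : ℕ∞) by exact_mod_cast Nat.le_succ k)
      (show ((k + 1 : ℕ) : ℕ∞) ≤ (T ω 0).encard from h)
  rw [e, measureReal_diff hsub hm, h1, h2]
  rfl

theorem B_real (k : ℕ) (hk : 1 ≤ k) : percH.real (B k) = (s (k - 1) - s k) / 2 := by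
  have h1 : percH.real (A k) = k * percH.real (B k) := by
    rw [measureReal_def, measureReal_def, transport k, ENNReal.toReal_mul, ENNReal.toReal_natCast]
  rw [A_real k hk, t_sub k hk] at h1
  have hk0 : (k:ℝ) ≠ 0 := by
    have : (0:ℝ) < k := by exact_mod_cast hk
    exact this.ne'
  exact (mul_left_cancel₀ hk0 h1).symm

/-- `0` is the first boundary vertex of a cluster with more than `k` boundary vertices -/
def D (k : ℕ) : Set Cf := {ω | First ω 0 ∧ (k : ℕ∞) < (T ω 0).encard}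

theorem D_split (k : ℕ) : D k = D (k + 1) ∪ B (k + 1) := by
  ext ω
  simp only [D, B, Set.mem_setOf_eq, Set.mem_union]
  constructor
  · rintro ⟨h1, h2⟩
    by_cases h3 : ((k + 1 : ℕ) : ℕ∞) < (T ω 0).encard
    · exact Or.inl ⟨h1, h3⟩
    · right
      refine ⟨h1, le_antisymm (not_lt.1 h3) ?_⟩
      push_cast
      exact Order.add_one_le_of_lt h2
  · rintro (⟨h1, h2⟩ | ⟨h1, h2⟩)
    · exact ⟨h1, lt_of_le_of_lt (by exact_mod_cast Nat.le_succ k) h2⟩
    · refine ⟨h1, ?_⟩
      rw [h2]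
      exact_mod_cast Nat.lt_succ_self k

theorem esc_of_mem {ω : Cf} {R : ℕ} {j : ℤ} (hj : j ∈ T ω 0) (hR : (R : ℤ) ≤ |2 * j|) :
    ω ∈ esc R := by
  refine ⟨(2 * j, 0), Or.inl hR, ?_⟩
  have : Relation.EqvGen (OpenAdjH ω) (2 * 0, 0) (2 * j, 0) := hj
  rwa [mul_zero] at this

theorem T_small {ω : Cf} {R : ℕ} (h : ω ∉ esc R) : T ω 0 ⊆ (Finset.Ioo (-(R:ℤ)) R : Set ℤ) := by
  intro j hj
  rw [Finset.coe_Ioo, Set.mem_Ioo]
  by_contra hc
  apply h
  refine esc_of_mem hj ?_
  rcases abs_cases (2 * j) with ⟨h1, h2⟩ | ⟨h1, h2⟩ <;> omega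

theorem D_sub (R k : ℕ) (hk : 2 * R ≤ k) : D k ⊆ esc R := by
  rintro ω ⟨_, h⟩
  by_contra hc
  have h1 := Set.encard_le_encard (T_small hc)
  rw [Set.encard_coe_eq_coe_finsetCard, Int.card_Ioo] at h1
  have h2 := lt_of_lt_of_le h h1
  have h3 : k < ((R:ℤ) - -(R:ℤ) - 1).toNat := by exact_mod_cast h2
  omega

theorem s_tendsto : Tendsto s atTop (𝓝 0) := by
  have h0 : ∀ k, 0 ≤ s k := fun k => by unfold s; positivity
  have h1 : ∀ k : ℕ, s k ≤ 1 / ((k:ℝ) + 1) := by
    intro k
    have h2 : ((k:ℝ) + 1) * catalan k = (k.centralBinom : ℝ) := by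
      exact_mod_cast succ_mul_catalan_eq_centralBinom k
    have h3 : (k.centralBinom : ℝ) ≤ 4 ^ k := by
      exact_mod_cast Nat.centralBinom_le_four_pow k
    unfold s
    rw [div_le_div_iff₀ (by positivity) (by positivity)]
    linarith
  exact squeeze_zero h0 h1 tendsto_one_div_add_atTop_nhds_zero_nat

theorem D_tendsto : Tendsto (fun k => percH.real (D k)) atTop (𝓝 0) := by
  have h1 : Tendsto (fun R : ℕ => R / 2) atTop atTop := by
    refine tendsto_atTop.2 fun b => ?_
    filter_upwards [eventually_ge_atTop (2 * b)] with R hR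
    omega
  refine squeeze_zero (fun R => measureReal_nonneg) (fun k => ?_) (H731B.esc_tendsto.comp h1)
  exact measureReal_mono (D_sub (k / 2) k (by omega))

theorem D_real (k : ℕ) : percH.real (D k) = s k / 2 := by
  have hstep : ∀ k, percH.real (D k) - s k / 2 = percH.real (D (k + 1)) - s (k + 1) / 2 := by
    intro k
    have hd : Disjoint (D (k + 1)) (B (k + 1)) := by
      refine Set.disjoint_left.2 ?_
      rintro ω ⟨_, h1⟩ ⟨_, h2⟩
      rw [h2] at h1
      exact lt_irrefl _ h1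
    rw [D_split k, measureReal_union hd (meas_B _), B_real (k + 1) (by omega), Nat.add_sub_cancel]
    ring
  have hconst : ∀ m, percH.real (D k) - s k / 2 = percH.real (D (k + m)) - s (k + m) / 2 := by
    intro m
    induction m with
    | zero => rfl
    | succ m ih => rw [ih, hstep (k + m)]; rfl
  have h1 : Tendsto (fun m => percH.real (D (k + m)) - s (k + m) / 2) atTop (𝓝 (0 - 0 / 2)) := by
    have e : Tendsto (fun m => k + m) atTop atTop := tendsto_atTop_mono
      (fun m => (show m ≤ k + m by omega)) tendsto_id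
    exact (D_tendsto.comp e).sub ((s_tendsto.comp e).div_const 2)
  have h2 := tendsto_nhds_unique (h1.congr fun m => (hconst m).symm) tendsto_const_nhds
  linarith

end Pool.Agent.K3h14.BC
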